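import Pool.Agent.Y560.TQ.Defs
import Pool.Agent.Y576.TH.Tdm

/-!
# TQ-ME: measurability and analyticity for median trees (helper349, for helper560)

The model is `H70TH/Dec.lean` (ternary relations).
-/

set_option autoImplicit false

namespace Pool.Agent.Y349.TQ

open Set MeasureTheory
open Pool.Agent.Y560.TH (XC IsoC MT)
open Pool.Agent.Y560.TQ
open Pool.Agent.Y560.TG.PL (meas_nth)
open Pool.Agent.Y576.TH (q_sub q_sub2 q_dec)

variable {Γ : Type}

/-! ### Borel conditions -/

theorem k_1 (a b c : ℕ) : Measurable fun x : XC Γ => x.1 a b c = true := by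
  have h : Measurable fun x : XC Γ => x.1 a b c :=
    (measurable_pi_apply c).comp ((measurable_pi_apply b).comp
      ((measurable_pi_apply a).comp measurable_fst))
  exact measurableSet_setOfPred.1 (h (measurableSet_singleton true))

theorem k_2 (γ : Γ) (m n : ℕ) : Measurable fun x : XC Γ => x.2.1 γ m = n := by
  have h : Measurable fun x : XC Γ => x.2.1 γ m :=
    (measurable_pi_apply m).comp ((measurable_pi_apply γ).comp
      (measurable_fst.comp measurable_snd))
  exact measurableSet_setOfPred.1 (h (measurableSet_singleton n))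

theorem k_3 (i m : ℕ) : Measurable fun x : XC Γ => x.2.2 i m = true := by
  have h : Measurable fun x : XC Γ => x.2.2 i m :=
    (measurable_pi_apply m).comp ((measurable_pi_apply i).comp
      (measurable_snd.comp measurable_snd))
  exact measurableSet_setOfPred.1 (h (measurableSet_singleton true))

theorem l_1 (a b c d : ℕ) : Measurable fun x : XQ Γ => x.1 a b c d = true := by
  have h : Measurable fun x : XQ Γ => x.1 a b c d :=
    (measurable_pi_apply d).comp ((measurable_pi_apply c).comp ((measurable_pi_apply b).comp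
      ((measurable_pi_apply a).comp measurable_fst)))
  exact measurableSet_setOfPred.1 (h (measurableSet_singleton true))

theorem l_2 (γ : Γ) (m n : ℕ) : Measurable fun x : XQ Γ => x.2.1 γ m = n := by
  have h : Measurable fun x : XQ Γ => x.2.1 γ m :=
    (measurable_pi_apply m).comp ((measurable_pi_apply γ).comp
      (measurable_fst.comp measurable_snd))
  exact measurableSet_setOfPred.1 (h (measurableSet_singleton n))

theorem l_3 (i m : ℕ) : Measurable fun x : XQ Γ => x.2.2 i m = true := by
  have h : Measurable fun x : XQ Γ => x.2.2 i m :=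
    (measurable_pi_apply m).comp ((measurable_pi_apply i).comp
      (measurable_snd.comp measurable_snd))
  exact measurableSet_setOfPred.1 (h (measurableSet_singleton true))

theorem e_enq (m k : ℕ) : Measurable fun y : XC Γ => enq y m = k :=
  meas_nth (fun (y : XC Γ) k => y.2.2 0 k = true) (fun k => k_3 0 k) m k

theorem e_Pq (k : ℕ) : Measurable fun y : XC Γ => Pq y k := k_3 0 k

theorem e_meets (a b c d : ℕ) : Measurable fun y : XC Γ => meets (It y) a b c d :=
  Measurable.exists fun m => (k_1 a m b).and (k_1 c m d)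

theorem e_md (a b c u : ℕ) : Measurable fun y : XC Γ => md (It y) a b c u :=
  (k_1 a u b).and ((k_1 b u c).and (k_1 a u c))

theorem e_meq (a b c d : ℕ) :
    Measurable fun y : XC Γ => meets (It y) (enq y a) (enq y b) (enq y c) (enq y d) :=
  q_sub2 (g := fun y : XC Γ => enq y a) (g' := fun y : XC Γ => enq y b)
    (P := fun y k l => meets (It y) k l (enq y c) (enq y d)) (e_enq a) (e_enq b) fun k l =>
      q_sub2 (g := fun y : XC Γ => enq y c) (g' := fun y : XC Γ => enq y d)
        (P := fun y k' l' => meets (It y) k l k' l') (e_enq c) (e_enq d) fun k' l' =>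
          e_meets k l k' l'

/-- the decoding is Borel -/
theorem meas_DQ : Measurable (DQ : XC Γ → XQ Γ) := by
  refine Measurable.prodMk ?_ (Measurable.prodMk ?_ ?_)
  · refine measurable_pi_lambda _ fun a => measurable_pi_lambda _ fun b =>
      measurable_pi_lambda _ fun c => measurable_pi_lambda _ fun d => ?_
    exact q_dec (e_meq a b c d).not
  · refine measurable_pi_lambda _ fun γ => measurable_pi_lambda _ fun m =>
      measurable_to_countable' fun k => ?_
    refine measurableSet_setOfPred.2 (meas_nth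
      (fun (y : XC Γ) j => enq y j = y.2.1 γ (enq y m)) (fun j => ?_) 0 k)
    refine q_sub2 (g := fun y : XC Γ => enq y j) (g' := fun y : XC Γ => enq y m)
      (P := fun y a b => a = y.2.1 γ b) (e_enq j) (e_enq m) fun a b => ?_
    have h1 : (fun y : XC Γ => a = y.2.1 γ b) = fun y => y.2.1 γ b = a := by
      funext y
      exact propext eq_comm
    rw [h1]
    exact k_2 γ b a
  · refine measurable_pi_lambda _ fun i => measurable_pi_lambda _ fun m =>
      measurable_to_bool ?_
    exact measurableSet_setOfPred.2 (q_sub (g := fun y : XC Γ => enq y m)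
      (P := fun y k => y.2.2 (i + 1) k = true) (e_enq m) fun k => k_3 (i + 1) k)

theorem inf_iff (y : XC Γ) : {k | Pq y k}.Infinite ↔ ∀ n, ∃ k, n < k ∧ Pq y k := by
  constructor
  · intro h n
    obtain ⟨k, h1, h2⟩ := h.exists_gt n
    exact ⟨k, h2, h1⟩
  · intro h hf
    obtain ⟨b, hb⟩ := hf.bddAbove
    obtain ⟨k, h1, h2⟩ := h b
    exact absurd (hb h2) (not_le.2 h1)

theorem e_MT [Group Γ] [Countable Γ] : Measurable fun y : XC Γ => MT y := by
  have h0 : (fun y : XC Γ => MT y) = fun y : XC Γ =>
      (∀ a c : ℕ, y.1 a a c = true) ∧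
      (∀ a b c : ℕ, y.1 a b c = true → y.1 c b a = true) ∧
      (∀ a b c : ℕ, y.1 a b c = true → y.1 a c b = true → b = c) ∧
      (∀ a b c d : ℕ, y.1 a d c = true → y.1 a d b = true ∨ y.1 b d c = true) ∧
      (∀ a b c : ℕ, ∃ m, y.1 a m b = true ∧ y.1 b m c = true ∧ y.1 a m c = true) ∧
      (∀ m : ℕ, y.2.1 1 m = m) ∧
      (∀ (γ δ : Γ) (m k : ℕ), y.2.1 δ m = k → ∀ l : ℕ, y.2.1 γ k = l → y.2.1 (γ * δ) m = l) ∧
      (∀ (γ : Γ) (a b c : ℕ), y.1 a b c = true → ∀ a' b' c' : ℕ, y.2.1 γ a = a' →
        y.2.1 γ b = b' → y.2.1 γ c = c' → y.1 a' b' c' = true) := by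
    funext y
    apply propext
    constructor
    · intro h
      refine ⟨h.left, h.symm, h.anti, h.tree, h.med, h.one, ?_, ?_⟩
      · rintro γ δ m k rfl l rfl
        exact h.mul γ δ m
      · rintro γ a b c h1 a' b' c' rfl rfl rfl
        exact h.auto γ a b c h1
    · rintro ⟨h1, h2, h3, h4, h5, h6, h7, h8⟩
      exact ⟨h1, h2, h3, h4, h5, h6, fun γ δ m => h7 γ δ m _ rfl _ rfl,
        fun γ a b c h => h8 γ a b c h _ _ _ rfl rfl rfl⟩
  rw [h0]
  refine (Measurable.forall fun a => Measurable.forall fun c => k_1 a a c).and ?_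
  refine (Measurable.forall fun a => Measurable.forall fun b => Measurable.forall fun c =>
    (k_1 a b c).imp (k_1 c b a)).and ?_
  refine (Measurable.forall fun a => Measurable.forall fun b => Measurable.forall fun c =>
    (k_1 a b c).imp ((k_1 a c b).imp measurable_const)).and ?_
  refine (Measurable.forall fun a => Measurable.forall fun b => Measurable.forall fun c =>
    Measurable.forall fun d => (k_1 a d c).imp ((k_1 a d b).or (k_1 b d c))).and ?_
  refine (Measurable.forall fun a => Measurable.forall fun b => Measurable.forall fun c =>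
    Measurable.exists fun m => (k_1 a m b).and ((k_1 b m c).and (k_1 a m c))).and ?_
  refine (Measurable.forall fun m => k_2 1 m m).and ?_
  refine (Measurable.forall fun γ => Measurable.forall fun δ => Measurable.forall fun m =>
    Measurable.forall fun k => (k_2 δ m k).imp (Measurable.forall fun l =>
      (k_2 γ k l).imp (k_2 (γ * δ) m l))).and ?_
  exact Measurable.forall fun γ => Measurable.forall fun a => Measurable.forall fun b =>
    Measurable.forall fun c => (k_1 a b c).imp (Measurable.forall fun a' =>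
      Measurable.forall fun b' => Measurable.forall fun c' => (k_2 γ a a').imp
        ((k_2 γ b b').imp ((k_2 γ c c').imp (k_1 a' b' c'))))

theorem meas_GQ [Group Γ] [Countable Γ] : MeasurableSet {y : XC Γ | GQ y} := by
  have h0 : {y : XC Γ | GQ y} = {y : XC Γ | MT y ∧
      (∀ n : ℕ, ∃ k, n < k ∧ Pq y k) ∧
      (∀ (γ : Γ) (k : ℕ), Pq y k → ∀ l : ℕ, y.2.1 γ k = l → Pq y l) ∧
      (∀ k : ℕ, ∃ a b c : ℕ, Pq y a ∧ Pq y b ∧ Pq y c ∧ md (It y) a b c k) ∧
      (∀ i k : ℕ, y.2.2 (i + 1) k = true → Pq y k)} := by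
    ext y
    constructor
    · intro h
      refine ⟨h.mt, (inf_iff y).1 h.inf, ?_, h.gen, h.sub⟩
      rintro γ k h1 l rfl
      exact h.cl γ k h1
    · rintro ⟨h1, h2, h3, h4, h5⟩
      exact ⟨h1, (inf_iff y).2 h2, fun γ k hk => h3 γ k hk _ rfl, h4, h5⟩
  rw [h0]
  refine measurableSet_setOfPred.2 ?_
  refine e_MT.and ?_
  refine (Measurable.forall fun n => Measurable.exists fun k =>
    measurable_const.and (e_Pq k)).and ?_
  refine (Measurable.forall fun γ => Measurable.forall fun k => (e_Pq k).imp
    (Measurable.forall fun l => (k_2 γ k l).imp (e_Pq l))).and ?_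
  refine (Measurable.forall fun k => Measurable.exists fun a => Measurable.exists fun b =>
    Measurable.exists fun c => (e_Pq a).and ((e_Pq b).and ((e_Pq c).and (e_md a b c k)))).and ?_
  exact Measurable.forall fun i => Measurable.forall fun k => (k_3 (i + 1) k).imp (e_Pq k)

/-! ### Isomorphism of structures with a quaternary relation -/

theorem isoQ_symm {σ : Equiv.Perm ℕ} {x y : XQ Γ} (h : IsoQ σ x y) : IsoQ σ.symm y x := by
  obtain ⟨h1, h2, h3⟩ := h
  refine ⟨fun a b c d => ?_, fun γ m => ?_, fun i m => ?_⟩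
  · rw [← h1, σ.apply_symm_apply, σ.apply_symm_apply, σ.apply_symm_apply, σ.apply_symm_apply]
  · have := h2 γ (σ.symm m)
    rw [σ.apply_symm_apply] at this
    rw [this, σ.symm_apply_apply]
  · rw [← h3, σ.apply_symm_apply]

theorem isoQ_trans {σ τ : Equiv.Perm ℕ} {x y z : XQ Γ} (h : IsoQ σ x y) (h' : IsoQ τ y z) :
    IsoQ (σ.trans τ) x z :=
  ⟨fun a b c d => (h'.1 _ _ _ _).trans (h.1 a b c d), fun γ m => by
    show z.2.1 γ (τ (σ m)) = τ (σ (x.2.1 γ m))
    rw [h'.2.1, h.2.1], fun i m => (h'.2.2 i _).trans (h.2.2 i m)⟩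

theorem bsQ [Countable Γ] : BorelSpace (XQ Γ) := by
  have h0 : BorelSpace (ℕ → ℕ → Bool) := inferInstance
  have s0 : SecondCountableTopology (ℕ → ℕ → Bool) := inferInstance
  have h1 : BorelSpace (ℕ → ℕ → ℕ → Bool) := Pi.borelSpace
  have s1 : SecondCountableTopology (ℕ → ℕ → ℕ → Bool) := inferInstance
  have h1' : BorelSpace (ℕ → ℕ → ℕ → ℕ → Bool) := Pi.borelSpace
  have h2 : BorelSpace (Γ → ℕ → ℕ) := inferInstance
  have h3 : BorelSpace ((Γ → ℕ → ℕ) × (ℕ → ℕ → Bool)) := Prod.borelSpace
  exact Prod.borelSpace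

/-- isomorphism of a Borel family of structures is analytic -/
theorem analytic_isoQ [Countable Γ] (u : (ℕ → Bool) → XQ Γ) (hu : Measurable u) :
    AnalyticSet {p : (ℕ → Bool) × (ℕ → Bool) | ∃ σ : Equiv.Perm ℕ, IsoQ σ (u p.1) (u p.2)} := by
  set Ω : Type := ((ℕ → Bool) × (ℕ → Bool)) × ((ℕ → ℕ) × (ℕ → ℕ)) with hΩ
  have m1 : ∀ a b : ℕ, Measurable fun q : Ω => q.2.1 a = b := fun a b => by
    have h : Measurable fun q : Ω => q.2.1 a :=
      (measurable_pi_apply a).comp (measurable_fst.comp measurable_snd)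
    exact measurableSet_setOfPred.1 (h (measurableSet_singleton b))
  have m2 : ∀ a b : ℕ, Measurable fun q : Ω => q.2.2 a = b := fun a b => by
    have h : Measurable fun q : Ω => q.2.2 a :=
      (measurable_pi_apply a).comp (measurable_snd.comp measurable_snd)
    exact measurableSet_setOfPred.1 (h (measurableSet_singleton b))
  have mu : Measurable fun q : Ω => u q.1.1 := hu.comp (measurable_fst.comp measurable_fst)
  have mv : Measurable fun q : Ω => u q.1.2 := hu.comp (measurable_snd.comp measurable_fst)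
  let P : Ω → Prop := fun q => (∀ a b, q.2.1 a = b → q.2.2 b = a) ∧
    (∀ a b, q.2.2 a = b → q.2.1 b = a) ∧
    (∀ a b e f c d g h, q.2.1 a = c → q.2.1 b = d → q.2.1 e = g → q.2.1 f = h →
      ((u q.1.2).1 c d g h = true ↔ (u q.1.1).1 a b e f = true)) ∧
    (∀ (γ : Γ) (a b c d : ℕ), q.2.1 a = c → q.2.1 b = d → (u q.1.1).2.1 γ a = b →
      (u q.1.2).2.1 γ c = d) ∧
    ∀ i a c, q.2.1 a = c → ((u q.1.2).2.2 i c = true ↔ (u q.1.1).2.2 i a = true)
  have hP : Measurable P := by
    refine (Measurable.forall fun a => Measurable.forall fun b => (m1 a b).imp (m2 b a)).and ?_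
    refine (Measurable.forall fun a => Measurable.forall fun b => (m2 a b).imp (m1 b a)).and ?_
    refine (Measurable.forall fun a => Measurable.forall fun b => Measurable.forall fun e =>
      Measurable.forall fun f => Measurable.forall fun c => Measurable.forall fun d =>
        Measurable.forall fun g => Measurable.forall fun h => (m1 a c).imp ((m1 b d).imp
          ((m1 e g).imp ((m1 f h).imp (Measurable.iff ?_ ?_))))).and ?_
    · exact (l_1 c d g h).comp mv
    · exact (l_1 a b e f).comp mu
    refine (Measurable.forall fun γ => Measurable.forall fun a => Measurable.forall fun b =>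
      Measurable.forall fun c => Measurable.forall fun d => (m1 a c).imp ((m1 b d).imp
        (Measurable.imp ?_ ?_))).and ?_
    · exact (l_2 γ a b).comp mu
    · exact (l_2 γ c d).comp mv
    refine Measurable.forall fun i => Measurable.forall fun a => Measurable.forall fun c =>
      (m1 a c).imp (Measurable.iff ?_ ?_)
    · exact (l_3 i c).comp mv
    · exact (l_3 i a).comp mu
  have h2 : {p : (ℕ → Bool) × (ℕ → Bool) | ∃ σ : Equiv.Perm ℕ, IsoQ σ (u p.1) (u p.2)} =
      Prod.fst '' {q : Ω | P q} := by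
    ext p
    constructor
    · rintro ⟨σ, hσ⟩
      refine ⟨(p, (⇑σ, ⇑σ.symm)), ⟨?_, ?_, ?_, ?_, ?_⟩, rfl⟩
      · rintro a b rfl
        exact σ.symm_apply_apply a
      · rintro a b rfl
        exact σ.apply_symm_apply a
      · rintro a b e f c d g h rfl rfl rfl rfl
        exact Bool.eq_iff_iff.1 (hσ.1 a b e f)
      · rintro γ a b c d rfl rfl h
        show (u p.2).2.1 γ (σ a) = σ b
        rw [hσ.2.1, h]
      · rintro i a c rfl
        exact Bool.eq_iff_iff.1 (hσ.2.2 i a)
    · rintro ⟨q, ⟨h1, h2, h3, h4, h5⟩, rfl⟩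
      refine ⟨⟨q.2.1, q.2.2, fun a => h1 a _ rfl, fun a => h2 a _ rfl⟩, ?_, ?_, ?_⟩
      · exact fun a b c d => Bool.eq_iff_iff.2 (h3 a b c d _ _ _ _ rfl rfl rfl rfl)
      · exact fun γ m => h4 γ m _ _ _ rfl rfl rfl
      · exact fun i m => Bool.eq_iff_iff.2 (h5 i m _ rfl)
  rw [h2]
  exact (measurableSet_setOfPred.2 hP).analyticSet_image measurable_fst

/-- Measurability and analyticity. -/
theorem t_QME : S_QME := fun _ _ _ => ⟨meas_DQ, meas_GQ, bsQ, analytic_isoQ⟩

end Pool.Agent.Y349.TQ
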